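import Mathlib

/-!
# Minors of the coordinate matrix and the least permutation monomial (helper11)
-/

set_option autoImplicit false

namespace Pool.Agent.H11Dy

open Finset Matrix

variable {r : ℕ}

/-- Rows `g t` are the rows `f t` of `A`, the other rows are unit vectors. -/
noncomputable def Cmat {k : ℕ} (A : Matrix (Fin r) (Fin r) ℂ) (f g : Fin k → Fin r) :
    Matrix (Fin r) (Fin r) ℂ := by
  classical
  exact Matrix.of fun j => if h : ∃ t, g t = j then A (f h.choose) else Pi.single j 1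

theorem det_Cmat {k : ℕ} (A : Matrix (Fin r) (Fin r) ℂ) (f g : Fin k → Fin r)
    (hg : Function.Injective g) : (Cmat A f g).det = (A.submatrix f g).det := by
  classical
  rw [Matrix.twoBlockTriangular_det (Cmat A f g) (fun j => ∃ t, g t = j)]
  · have h1 : (toSquareBlockProp (Cmat A f g) fun j => ¬ ∃ t, g t = j) = 1 := by
      ext i j
      have hi := i.2
      change (if h : ∃ t, g t = (i : Fin r) then A (f h.choose) else Pi.single (i : Fin r) 1) j =
        (1 : Matrix {a // ¬∃ t, g t = a} {a // ¬∃ t, g t = a} ℂ) i j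
      rw [dif_neg hi, Matrix.one_apply, Pi.single_apply]
      by_cases h : i = j
      · subst h; simp
      · have h' : (j : Fin r) ≠ i := fun hc => h (Subtype.ext hc.symm)
        simp [h, h']
    rw [h1, det_one, mul_one]
    let e : Fin k ≃ {j // ∃ t, g t = j} := Equiv.ofBijective (fun t => ⟨g t, t, rfl⟩)
      ⟨fun a b h => hg (congrArg Subtype.val h), fun ⟨j, t, ht⟩ => ⟨t, Subtype.ext ht⟩⟩
    rw [← det_submatrix_equiv_self e]
    congr 1
    ext a b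
    have h2 : ∃ t, g t = g a := ⟨a, rfl⟩
    have h3 : h2.choose = a := hg h2.choose_spec
    change (if h : ∃ t, g t = g a then A (f h.choose) else Pi.single (g a) 1) (g b) = _
    rw [dif_pos h2, h3]
    rfl
  · intro i hi j hj
    simp only [Cmat, Matrix.of_apply]
    rw [dif_neg hi, Pi.single_apply, if_neg]
    rintro rfl
    exact hi hj

/-- Powers of two times roots of unity. -/
def G : Set ℂ := {z | ∃ (N : ℕ) (u : ℂ) (m : ℤ), 0 < N ∧ u ^ N = 1 ∧ z = u * 2 ^ m}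

theorem G_one : (1 : ℂ) ∈ G := ⟨1, 1, 0, one_pos, by simp, by simp⟩

theorem root_ne_zero {u : ℂ} {N : ℕ} (hN : 0 < N) (hu : u ^ N = 1) : u ≠ 0 := by
  rintro rfl
  rw [zero_pow hN.ne'] at hu
  exact zero_ne_one hu

theorem G_ne_zero {z : ℂ} (h : z ∈ G) : z ≠ 0 := by
  obtain ⟨N, u, m, hN, hu, rfl⟩ := h
  exact mul_ne_zero (root_ne_zero hN hu) (zpow_ne_zero _ two_ne_zero)

theorem G_mul (p : ℂ) (hp : p ∈ G) (q : ℂ) (hq : q ∈ G) : p * q ∈ G := by
  obtain ⟨N, u, m, hN, hu, rfl⟩ := hp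
  obtain ⟨N', u', m', hN', hu', rfl⟩ := hq
  refine ⟨N * N', u * u', m + m', Nat.mul_pos hN hN', ?_, ?_⟩
  · rw [mul_pow, pow_mul, hu, one_pow, mul_comm N N', pow_mul, hu', one_pow, one_mul]
  · rw [zpow_add₀ two_ne_zero]; ring

theorem G_neg (p : ℂ) (hp : p ∈ G) : -p ∈ G := by
  have h : (-1 : ℂ) ∈ G := ⟨2, -1, 0, two_pos, by norm_num, by simp⟩
  have := G_mul _ h _ hp
  rwa [neg_one_mul] at this

theorem G_inv (p : ℂ) (hp : p ∈ G) : p⁻¹ ∈ G := by
  obtain ⟨N, u, m, hN, hu, rfl⟩ := hp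
  refine ⟨N, u⁻¹, -m, hN, by rw [inv_pow, hu, inv_one], ?_⟩
  rw [mul_inv, _root_.zpow_neg]

theorem root_norm {u : ℂ} {N : ℕ} (hN : 0 < N) (hu : u ^ N = 1) : ‖u‖ = 1 :=
  Complex.norm_eq_one_of_pow_eq_one hu hN.ne'

theorem G_norm {z : ℂ} (h : z ∈ G) : ∃ m : ℤ, ‖z‖ = (2 : ℝ) ^ m := by
  obtain ⟨N, u, m, hN, hu, rfl⟩ := h
  exact ⟨m, by rw [norm_mul, root_norm hN hu, norm_zpow]; simp⟩

/-- An element of `G` of absolute value `2 ^ m`. -/
theorem G_eq {z : ℂ} (h : z ∈ G) {m : ℤ} (hm : ‖z‖ = (2 : ℝ) ^ m) :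
    ∃ (N : ℕ) (u : ℂ), 0 < N ∧ u ^ N = 1 ∧ z = u * 2 ^ m := by
  obtain ⟨N, u, n, hN, hu, rfl⟩ := h
  have h1 : ‖u * 2 ^ n‖ = (2 : ℝ) ^ n := by rw [norm_mul, root_norm hN hu, norm_zpow]; simp
  have h2 : n = m := zpow_right_injective₀ (by norm_num : (0:ℝ) < 2) (by norm_num) (h1.symm.trans hm)
  subst h2
  exact ⟨N, u, hN, hu, rfl⟩

theorem root_integral {u : ℂ} {N : ℕ} (hN : 0 < N) (hu : u ^ N = 1) : IsIntegral ℤ u := by
  refine IsIntegral.of_pow hN ?_
  rw [hu]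
  exact isIntegral_one

theorem not_half : ¬ IsIntegral ℤ ((1 / 2 : ℚ) : ℂ) := by
  intro h
  have h1 : IsIntegral ℤ (1 / 2 : ℚ) :=
    (isIntegral_algebraMap_iff (algebraMap ℚ ℂ).injective).1 (by simpa using h)
  obtain ⟨n, hn⟩ := IsIntegrallyClosed.isIntegral_iff.1 h1
  have h2 : ((2 * n : ℤ) : ℚ) = ((1 : ℤ) : ℚ) := by
    push_cast
    have : (n : ℚ) = 1 / 2 := by simpa using hn
    rw [this]; norm_num
  have h3 : (2 * n : ℤ) = 1 := by exact_mod_cast h2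
  omega

/-- `1 = 2 x` is impossible for an algebraic integer `x`. -/
theorem not_two_mul {x : ℂ} (hx : IsIntegral ℤ x) (h : 2 * x = 1) : False := by
  apply not_half
  have : ((1 / 2 : ℚ) : ℂ) = x := by
    push_cast
    linear_combination (-1 / 2 : ℂ) * h
  rw [this]
  exact hx

theorem conj_root {u : ℂ} {N : ℕ} (hN : 0 < N) (hu : u ^ N = 1) :
    (starRingEnd ℂ) u = u⁻¹ := by
  have h1 : u * (starRingEnd ℂ) u = 1 := by
    rw [Complex.mul_conj, Complex.normSq_eq_norm_sq, root_norm hN hu]; simp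
  exact eq_inv_of_mul_eq_one_right h1

/-- If `p`, `q` and `p + q` (or `0`) are powers of two up to sign then `|p| ≤ 2 |q|`. -/
theorem G_sum (p : ℂ) (hp : p ∈ G) (q : ℂ) (hq : q ∈ G) (h : p + q = 0 ∨ p + q ∈ G) :
    ‖p‖ ≤ 2 * ‖q‖ := by
  obtain ⟨a, ha⟩ := G_norm hp
  obtain ⟨b, hb⟩ := G_norm hq
  by_contra hc
  push Not at hc
  rw [ha, hb] at hc
  have hab : b + 1 < a := by
    have : (2 : ℝ) ^ (b + 1) < 2 ^ a := by
      rw [zpow_add₀ two_ne_zero, zpow_one, mul_comm]; exact hc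
    exact (zpow_lt_zpow_iff_right₀ (by norm_num)).1 this
  have hb0 : (0 : ℝ) < 2 ^ b := zpow_pos (by norm_num) _
  rcases h with h | h
  · have h1 : p = -q := eq_neg_of_add_eq_zero_left h
    have h2 : ‖p‖ = ‖q‖ := by rw [h1, norm_neg]
    rw [ha, hb] at h2
    rw [h2] at hc
    linarith
  · obtain ⟨d, hd⟩ := G_norm h
    have h1 : ‖p + q‖ ≤ 2 ^ a + 2 ^ b := by rw [← ha, ← hb]; exact norm_add_le _ _
    have h2 : (2 : ℝ) ^ a - 2 ^ b ≤ ‖p + q‖ := by
      rw [← ha, ← hb]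
      have := norm_sub_norm_le p (-q)
      rwa [norm_neg, sub_neg_eq_add] at this
    have h3 : (2 : ℝ) ^ a = 2 ^ (a - 1) * 2 := by
      rw [← zpow_add_one₀ two_ne_zero, sub_add_cancel]
    have h4 : (2 : ℝ) ^ (b + 1) ≤ 2 ^ (a - 1) :=
      (zpow_le_zpow_iff_right₀ (by norm_num)).2 (by omega)
    rw [zpow_add_one₀ two_ne_zero] at h4
    have h5 : (2 : ℝ) ^ (a - 1) < 2 ^ d := by rw [← hd]; linarith
    have h6 : (2 : ℝ) ^ d < 2 ^ (a + 1) := by
      rw [← hd, zpow_add_one₀ two_ne_zero]; linarith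
    have h7 := (zpow_lt_zpow_iff_right₀ (by norm_num : (1:ℝ) < 2)).1 h5
    have h8 := (zpow_lt_zpow_iff_right₀ (by norm_num : (1:ℝ) < 2)).1 h6
    have h9 : d = a := by omega
    subst h9
    obtain ⟨N, u, hN, hu, e1⟩ := G_eq hp ha
    obtain ⟨N', w, hN', hw, e2⟩ := G_eq hq hb
    have hz : ∀ z : ℂ, z * (starRingEnd ℂ) z = ((‖z‖ ^ 2 : ℝ) : ℂ) := fun z => by
      rw [Complex.mul_conj, Complex.normSq_eq_norm_sq]
    have h10 : (p + q) * (starRingEnd ℂ) (p + q) = p * (starRingEnd ℂ) p := by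
      rw [hz, hz, hd, ha]
    have hu0 := root_ne_zero hN hu
    have hw0 := root_ne_zero hN' hw
    have c2 : ∀ m : ℤ, (starRingEnd ℂ) ((2 : ℂ) ^ m) = 2 ^ m := fun m => by
      rw [map_zpow₀]; congr 1; exact Complex.conj_ofNat 2
    have cp : (starRingEnd ℂ) p = u⁻¹ * 2 ^ d := by rw [e1, map_mul, conj_root hN hu, c2]
    have cq : (starRingEnd ℂ) q = w⁻¹ * 2 ^ b := by rw [e2, map_mul, conj_root hN' hw, c2]
    rw [map_add, cp, cq, e1, e2] at h10
    have hU : (2 : ℂ) ^ d ≠ 0 := zpow_ne_zero _ two_ne_zero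
    have hV : (2 : ℂ) ^ b ≠ 0 := zpow_ne_zero _ two_ne_zero
    obtain ⟨m, hm⟩ : ∃ m : ℕ, d = b + 1 + m := ⟨(d - (b + 1)).toNat, by omega⟩
    have hUV : (2 : ℂ) ^ d = 2 ^ b * (2 * 2 ^ m) := by
      rw [hm, zpow_add₀ two_ne_zero, zpow_add₀ two_ne_zero, zpow_natCast, zpow_one, mul_assoc]
    have h11 : (2 : ℂ) ^ b * 2 ^ b * (w * w⁻¹) +
        2 ^ d * 2 ^ b * (u * w⁻¹ + w * u⁻¹) = 0 := by linear_combination h10
    rw [mul_inv_cancel₀ hw0, mul_one, hUV] at h11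
    have h12 : (2 : ℂ) ^ b * 2 ^ b * (1 + 2 * (2 ^ m * (u * w⁻¹ + w * u⁻¹))) = 0 := by
      linear_combination h11
    have h13 := (mul_eq_zero.1 h12).resolve_left (mul_ne_zero hV hV)
    have iu := root_integral hN hu
    have iw := root_integral hN' hw
    have iu' : IsIntegral ℤ u⁻¹ := root_integral hN (by rw [inv_pow, hu, inv_one])
    have iw' : IsIntegral ℤ w⁻¹ := root_integral hN' (by rw [inv_pow, hw, inv_one])
    have i2 : IsIntegral ℤ ((2 : ℂ) ^ m) := by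
      have : IsIntegral ℤ (2 : ℂ) := by
        have := isIntegral_algebraMap (R := ℤ) (A := ℂ) (x := 2)
        simpa using this
      exact this.pow m
    refine not_two_mul (x := -(2 ^ m * (u * w⁻¹ + w * u⁻¹))) ?_ (by linear_combination (-1 : ℂ) * h13)
    exact (i2.mul ((iu.mul iw').add (iw.mul iu'))).neg

theorem G_prod {ι : Type*} (s : Finset ι) (f : ι → ℂ) (h : ∀ i ∈ s, f i ∈ G) :
    ∏ i ∈ s, f i ∈ G := by
  classical
  induction s using Finset.induction_on with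
  | empty => simpa using G_one
  | insert a s ha ih =>
    rw [prod_insert ha]
    exact G_mul _ (h a (mem_insert_self _ _)) _ (ih fun i hi => h i (mem_insert_of_mem hi))

/-- Some permutation monomial of `A` is at most `|det A|` in absolute value. -/
theorem exists_small (A : Matrix (Fin r) (Fin r) ℂ) (hA : ∀ i j, A i j = 0 ∨ A i j ∈ G)
    (hdet : A.det ∈ G) :
    ∃ σ : Equiv.Perm (Fin r), (∀ i, A i (σ i) ≠ 0) ∧ ∏ i, ‖A i (σ i)‖ ≤ ‖A.det‖ := by
  classical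
  by_contra hc
  push Not at hc
  obtain ⟨k, hk⟩ := G_norm hdet
  have i2 : ∀ m : ℕ, IsIntegral ℤ ((2 : ℂ) ^ m) := fun m => by
    have : IsIntegral ℤ (2 : ℂ) := by
      have := isIntegral_algebraMap (R := ℤ) (A := ℂ) (x := 2)
      simpa using this
    exact this.pow m
  have key : ∀ σ : Equiv.Perm (Fin r), ∃ n : ℂ, IsIntegral ℤ n ∧
      ∏ i, A i (σ i) = 2 ^ (k + 1) * n := by
    intro σ
    by_cases h0 : ∀ i, A i (σ i) ≠ 0
    · have h1 := hc σ h0
      have h2 : ∏ i, A i (σ i) ∈ G := G_prod _ _ fun i _ => (hA i (σ i)).resolve_left (h0 i)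
      obtain ⟨e, he⟩ := G_norm h2
      rw [← norm_prod, he, hk] at h1
      have h3 := (zpow_lt_zpow_iff_right₀ (by norm_num : (1:ℝ) < 2)).1 h1
      obtain ⟨m, hm⟩ : ∃ m : ℕ, e = k + 1 + m := ⟨(e - (k + 1)).toNat, by omega⟩
      obtain ⟨N, u, hN, hu, h5⟩ := G_eq h2 he
      refine ⟨u * 2 ^ m, (root_integral hN hu).mul (i2 m), ?_⟩
      rw [h5, hm, zpow_add₀ two_ne_zero (k + 1), zpow_natCast]
      ring
    · push Not at h0
      obtain ⟨i, hi⟩ := h0
      exact ⟨0, isIntegral_zero, by rw [prod_eq_zero (mem_univ i) hi]; simp⟩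
  choose n hn hn' using key
  have h1 : A.det = 2 ^ (k + 1) *
      ∑ σ : Equiv.Perm (Fin r), (((Equiv.Perm.sign σ : ℤˣ) : ℤ) : ℂ) * n σ := by
    rw [← det_transpose, det_apply', mul_sum]
    refine sum_congr rfl fun σ _ => ?_
    simp only [transpose_apply]
    rw [hn' σ]
    ring
  set N : ℂ := ∑ σ : Equiv.Perm (Fin r), (((Equiv.Perm.sign σ : ℤˣ) : ℤ) : ℂ) * n σ with hN
  have hNint : IsIntegral ℤ N := by
    rw [hN]
    refine IsIntegral.sum _ fun σ _ => ?_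
    refine IsIntegral.mul ?_ (hn σ)
    have := isIntegral_algebraMap (R := ℤ) (A := ℂ) (x := ((Equiv.Perm.sign σ : ℤˣ) : ℤ))
    simpa using this
  have h2k : (2 : ℂ) ^ k ≠ 0 := zpow_ne_zero _ two_ne_zero
  rw [zpow_add_one₀ two_ne_zero] at h1
  obtain ⟨M, u, hM, hu, h2⟩ := G_eq hdet hk
  have hu0 := root_ne_zero hM hu
  refine not_two_mul (x := N * u⁻¹)
    (hNint.mul (root_integral hM (by rw [inv_pow, hu, inv_one]))) ?_
  rw [h1] at h2
  have h3 : 2 * N = u := by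
    have : (2 : ℂ) ^ k * (2 * N) = 2 ^ k * u := by linear_combination h2
    exact mul_left_cancel₀ h2k this
  rw [← mul_assoc, h3, mul_inv_cancel₀ hu0]

end Pool.Agent.H11Dy
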