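import Pool.Agent.H11Dy.Leib
import Pool.Agent.H11Dy.Minor

/-!
# Dyadic matroids: all complementary pairs have comparable determinants (helper11)
-/

set_option autoImplicit false

namespace Pool.Agent.H11Dy

open Finset Matrix

variable {r : ℕ}

/-- The cycle lemma of helper23, used here as a hypothesis. -/
def MatchRatio (r : ℕ) : Prop := ∀ A : Matrix (Fin r) (Fin r) ℂ,
  (∀ (k : ℕ) (f g : Fin k → Fin r), Function.Injective f → Function.Injective g →
    (A.submatrix f g).det = 0 ∨ (A.submatrix f g).det ∈ G) →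
  ∀ s t : Equiv.Perm (Fin r), (∀ i, A i (s i) ≠ 0) → (∀ i, A i (t i) ≠ 0) →
    ∏ i, ‖A i (s i)‖ ≤ 2 ^ r * ∏ i, ‖A i (t i)‖

/-- Two pairs of injective maps with the same union and intersection of the ranges differ by a
permutation. -/
theorem exists_perm_of_splits {α : Type*} (x y b b' : Fin r → α) (hx : Function.Injective x)
    (hy : Function.Injective y) (hb : Function.Injective b) (hb' : Function.Injective b')
    (hu : Set.range x ∪ Set.range y = Set.range b ∪ Set.range b')
    (hi : Set.range x ∩ Set.range y = Set.range b ∩ Set.range b') :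
    ∃ π : Equiv.Perm (Fin r ⊕ Fin r), ∀ p, Sum.elim x y p = Sum.elim b b' (π p) := by
  classical
  have hcard : ∀ (u v : Fin r → α) (_ : Function.Injective u) (_ : Function.Injective v) (c : α),
      Fintype.card {p : Fin r ⊕ Fin r // Sum.elim u v p = c} =
        (if c ∈ Set.range u then 1 else 0) + (if c ∈ Set.range v then 1 else 0) := by
    intro u v hu hv c
    have e1 : ∀ (w : Fin r → α) (_ : Function.Injective w),
        Fintype.card {i : Fin r // w i = c} = if c ∈ Set.range w then 1 else 0 := by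
      intro w hw
      split_ifs with h
      · obtain ⟨i, rfl⟩ := h
        exact Fintype.card_eq_one_iff.2 ⟨⟨i, rfl⟩, fun j => Subtype.ext (hw j.2)⟩
      · exact Fintype.card_eq_zero_iff.2 ⟨fun j => h ⟨j.1, j.2⟩⟩
    rw [← e1 u hu, ← e1 v hv, ← Fintype.card_sum]
    refine Fintype.card_congr ⟨?_, ?_, ?_, ?_⟩
    · rintro ⟨p | p, hp⟩
      · exact Sum.inl ⟨p, hp⟩
      · exact Sum.inr ⟨p, hp⟩
    · rintro (p | p)
      · exact ⟨Sum.inl p.1, p.2⟩
      · exact ⟨Sum.inr p.1, p.2⟩
    · rintro ⟨p | p, hp⟩ <;> rfl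
    · rintro (p | p) <;> rfl
  have he : ∀ c, Nonempty ({p // Sum.elim x y p = c} ≃ {p // Sum.elim b b' p = c}) := by
    intro c
    refine ⟨Fintype.equivOfCardEq ?_⟩
    rw [hcard x y hx hy c, hcard b b' hb hb' c]
    have h1 : (c ∈ Set.range x ∨ c ∈ Set.range y) ↔ (c ∈ Set.range b ∨ c ∈ Set.range b') := by
      have := Set.ext_iff.1 hu c
      simpa only [Set.mem_union] using this
    have h2 : (c ∈ Set.range x ∧ c ∈ Set.range y) ↔ (c ∈ Set.range b ∧ c ∈ Set.range b') := by
      have := Set.ext_iff.1 hi c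
      simpa only [Set.mem_inter_iff] using this
    by_cases a1 : c ∈ Set.range x <;> by_cases a2 : c ∈ Set.range y <;>
      by_cases a3 : c ∈ Set.range b <;> by_cases a4 : c ∈ Set.range b' <;>
      simp_all
  refine ⟨Equiv.ofFiberEquiv fun c => (he c).some, fun p => ?_⟩
  exact (Equiv.ofFiberEquiv_map (fun c => (he c).some) p).symm

/-- All complementary pairs of a dyadic representation have comparable products of determinants. -/
theorem dyadic_ratio (hMR : MatchRatio r) {α : Type*} (φ : α → Fin r → ℂ) (b b' : Fin r → α)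
    (hb : Function.Injective b) (hb' : Function.Injective b')
    (hdb : (Matrix.of fun i => φ (b i)).det ≠ 0) (hdb' : (Matrix.of fun i => φ (b' i)).det ≠ 0)
    (hG : ∀ x : Fin r → α, Set.range x ⊆ Set.range b ∪ Set.range b' →
      (Matrix.of fun i => φ (x i)).det = 0 ∨ (Matrix.of fun i => φ (x i)).det ∈ G)
    (x y : Fin r → α) (hx : Function.Injective x) (hy : Function.Injective y)
    (hu : Set.range x ∪ Set.range y = Set.range b ∪ Set.range b')
    (hi : Set.range x ∩ Set.range y = Set.range b ∩ Set.range b') :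
    ‖(Matrix.of fun i => φ (x i)).det‖ * ‖(Matrix.of fun i => φ (y i)).det‖ ≤
      ((r.factorial : ℝ) ^ 2 * 2 ^ r) *
        (‖(Matrix.of fun i => φ (b i)).det‖ * ‖(Matrix.of fun i => φ (b' i)).det‖) := by
  classical
  set Mb : Matrix (Fin r) (Fin r) ℂ := Matrix.of fun i => φ (b i) with hMb
  set Mb' : Matrix (Fin r) (Fin r) ℂ := Matrix.of fun i => φ (b' i) with hMb'
  set A : Matrix (Fin r) (Fin r) ℂ := Mb' * Mb⁻¹ with hA
  have hunit : IsUnit Mb.det := isUnit_iff_ne_zero.2 hdb
  have hAM : A * Mb = Mb' := by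
    rw [hA, Matrix.mul_assoc, Matrix.nonsing_inv_mul _ hunit, Matrix.mul_one]
  -- the vector of the position `p` in the basis `b`
  have hW : ∀ p : Fin r ⊕ Fin r, W A p ᵥ* Mb = φ (Sum.elim b b' p) := by
    rintro (j | k)
    · change (Pi.single j 1 : Fin r → ℂ) ᵥ* Mb = φ (b j)
      rw [Matrix.single_one_vecMul]
      rfl
    · change A k ᵥ* Mb = φ (b' k)
      have : (A * Mb) k = Mb' k := by rw [hAM]
      rw [Matrix.mul_apply_eq_vecMul] at this
      exact this
  have hmat : ∀ q : Fin r → Fin r ⊕ Fin r, (Matrix.of fun i => φ (Sum.elim b b' (q i))) =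
      (Matrix.of fun i => W A (q i)) * Mb := by
    intro q
    ext i j
    rw [Matrix.mul_apply_eq_vecMul]
    exact congrFun (hW (q i)).symm j
  have hGb : Mb.det ∈ G := (hG b Set.subset_union_left).resolve_left hdb
  have hGb' : Mb'.det ∈ G := (hG b' Set.subset_union_right).resolve_left hdb'
  have hdetA : A.det = Mb'.det * (Mb.det)⁻¹ := by
    have h := congrArg Matrix.det hAM
    rw [det_mul] at h
    rw [← h, mul_assoc, mul_inv_cancel₀ hdb, mul_one]
  have hGA : A.det ∈ G := by
    rw [hdetA]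
    exact G_mul _ hGb' _ (G_inv _ hGb)
  have hminor : ∀ (k : ℕ) (f g : Fin k → Fin r), Function.Injective f → Function.Injective g →
      (A.submatrix f g).det = 0 ∨ (A.submatrix f g).det ∈ G := by
    intro k f g _ hg
    rw [← det_Cmat A f g hg]
    let q : Fin r → Fin r ⊕ Fin r := fun j =>
      if h : ∃ t, g t = j then Sum.inr (f h.choose) else Sum.inl j
    have hC : Cmat A f g = Matrix.of fun j => W A (q j) := by
      ext i j
      simp only [Cmat, Matrix.of_apply, q]
      split_ifs with h <;> rfl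
    have h1 := hG (fun i => Sum.elim b b' (q i)) (by
      rintro _ ⟨i, rfl⟩
      rcases hqi : q i with j | j
      · exact Or.inl ⟨j, by simp only [hqi, Sum.elim_inl]⟩
      · exact Or.inr ⟨j, by simp only [hqi, Sum.elim_inr]⟩)
    rw [hmat q, det_mul, ← hC] at h1
    rcases h1 with h1 | h1
    · exact Or.inl ((mul_eq_zero.1 h1).resolve_right hdb)
    · right
      have := G_mul _ h1 _ (G_inv _ hGb)
      rwa [mul_assoc, mul_inv_cancel₀ hdb, mul_one] at this
  have hentry : ∀ i j, A i j = 0 ∨ A i j ∈ G := by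
    intro i j
    have h1 := hminor 1 (fun _ => i) (fun _ => j) (Function.injective_of_subsingleton _)
      (Function.injective_of_subsingleton _)
    rwa [Matrix.det_fin_one, Matrix.submatrix_apply] at h1
  obtain ⟨t, ht, hts⟩ := exists_small A hentry hGA
  have hT : ∀ s : Equiv.Perm (Fin r), ∏ k, ‖A k (s k)‖ ≤ 2 ^ r * ‖A.det‖ := by
    intro s
    by_cases hs : ∀ i, A i (s i) ≠ 0
    · exact (hMR A hminor s t hs ht).trans (mul_le_mul_of_nonneg_left hts (by positivity))
    · push Not at hs
      obtain ⟨i, hi⟩ := hs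
      rw [prod_eq_zero (mem_univ i) (by rw [hi, norm_zero])]
      positivity
  obtain ⟨π, hπ⟩ := exists_perm_of_splits x y b b' hx hy hb hb' hu hi
  have hxm : (Matrix.of fun i => φ (x i)) = (Matrix.of fun i => W A (π (Sum.inl i))) * Mb := by
    rw [← hmat fun i => π (Sum.inl i)]
    congr 1
    funext i
    exact congrArg φ (hπ (Sum.inl i))
  have hym : (Matrix.of fun i => φ (y i)) = (Matrix.of fun i => W A (π (Sum.inr i))) * Mb := by
    rw [← hmat fun i => π (Sum.inr i)]
    congr 1
    funext i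
    exact congrArg φ (hπ (Sum.inr i))
  have hfin := det_mul_le A _ hT π
  rw [hxm, hym, det_mul, det_mul, norm_mul, norm_mul]
  have hb'n : ‖Mb'.det‖ = ‖A.det‖ * ‖Mb.det‖ := by rw [← hAM, det_mul, norm_mul]
  rw [hb'n]
  have h0 : (0 : ℝ) ≤ ‖Mb.det‖ * ‖Mb.det‖ := by positivity
  have := mul_le_mul_of_nonneg_right hfin h0
  calc _ = (‖(Matrix.of fun i => W A (π (Sum.inl i))).det‖ *
      ‖(Matrix.of fun i => W A (π (Sum.inr i))).det‖) * (‖Mb.det‖ * ‖Mb.det‖) := by ring
    _ ≤ _ := this
    _ = _ := by ring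

end Pool.Agent.H11Dy
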