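import Pool.Agent.H11Dy.Bridge
import Pool.Agent.H23Sw.Cycle
import Pool.Agent.H47PS.Final

/-!
# Swap theorem with a polynomial length for matroids with determinants `ζ 2 ^ m` (helper11, helper23)
-/

set_option autoImplicit false

namespace Pool.Agent.H11Dy

theorem matchRatio (r : ℕ) : MatchRatio r := by
  intro A H s t hs ht
  exact H23Sw.match_ratio (NormedField.toAbsoluteValue ℂ) G 2 (by norm_num) G_one G_mul G_neg
    G_sum A H s t hs ht

theorem final4 {α : Type*} {r : ℕ} (M : Matroid α)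
    (φ : α → Fin r → ℂ) (hφ : ∀ X ⊆ M.E, M.Indep X ↔ LinearIndepOn ℂ φ X)
    (b b' : Fin r → α) (hb : Function.Injective b) (hb' : Function.Injective b')
    (hB : M.IsBase (Set.range b)) (hB' : M.IsBase (Set.range b'))
    (hG : ∀ x : Fin r → α, Set.range x ⊆ Set.range b ∪ Set.range b' →
      (Matrix.of fun i => φ (x i)).det = 0 ∨ ∃ (k : ℕ) (ζ : ℂ) (m : ℤ), 0 < k ∧ ζ ^ k = 1 ∧
        (Matrix.of fun i => φ (x i)).det = ζ * 2 ^ m) :
    H47PS.ShortSwap M (Set.range b) (Set.range b') (((r.factorial : ℝ) ^ 2 * 2 ^ r) ^ 2) := by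
  refine H47PS.final1 M φ hφ b b' hb hb' hB hB' fun x y hxy => ?_
  have h1 := H47PS.absDet_ne_zero hφ hb hB
  have h2 := H47PS.absDet_ne_zero hφ hb' hB'
  have h3 := dyadic_ratio (matchRatio r) φ b b' hb hb' (norm_ne_zero_iff.1 h1)
    (norm_ne_zero_iff.1 h2) hG x y hxy.1 hxy.2.1 hxy.2.2.1 hxy.2.2.2
  rw [← mul_pow]
  exact pow_le_pow_left₀ (mul_nonneg (norm_nonneg _) (norm_nonneg _)) h3 2

end Pool.Agent.H11Dy
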