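import Mathlib

/-!
# Leibniz bound for a complementary pair of determinants (helper11)
-/

set_option autoImplicit false

namespace Pool.Agent.H11Dy

open Finset Matrix

variable {r : ℕ}

/-- The unit vectors, then the rows of `A`. -/
def W (A : Matrix (Fin r) (Fin r) ℂ) : Fin r ⊕ Fin r → Fin r → ℂ :=
  Sum.elim (fun j => Pi.single j 1) (fun k => A k)

theorem term_le (A : Matrix (Fin r) (Fin r) ℂ) (T : ℝ)
    (hT : ∀ ρ : Equiv.Perm (Fin r), ∏ k, ‖A k (ρ k)‖ ≤ T) (u : Equiv.Perm (Fin r ⊕ Fin r)) :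
    (∏ i, ‖W A (u (Sum.inl i)) i‖) * (∏ i, ‖W A (u (Sum.inr i)) i‖) ≤ T := by
  classical
  have hT0 : 0 ≤ T := (prod_nonneg fun _ _ => norm_nonneg _).trans (hT 1)
  by_cases h0 : (∏ i, ‖W A (u (Sum.inl i)) i‖) * (∏ i, ‖W A (u (Sum.inr i)) i‖) = 0
  · rw [h0]; exact hT0
  have h1 : ∀ i, W A (u (Sum.inl i)) i ≠ 0 := fun i hi =>
    (left_ne_zero_of_mul h0) (prod_eq_zero (mem_univ i) (by rw [hi, norm_zero]))
  have h2 : ∀ i, W A (u (Sum.inr i)) i ≠ 0 := fun i hi =>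
    (right_ne_zero_of_mul h0) (prod_eq_zero (mem_univ i) (by rw [hi, norm_zero]))
  have h3 : ∀ i j, W A (Sum.inl j) i ≠ 0 → i = j := by
    intro i j h
    by_contra hc
    exact h (by simp [W, hc])
  have key : ∀ i, ∃ k, (u (Sum.inl i) = Sum.inl i ∧ u (Sum.inr i) = Sum.inr k) ∨
      (u (Sum.inr i) = Sum.inl i ∧ u (Sum.inl i) = Sum.inr k) := by
    intro i
    have hpre : u (u.symm (Sum.inl i)) = Sum.inl i := u.apply_symm_apply _
    rcases hq : u.symm (Sum.inl i) with q | q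
    · rw [hq] at hpre
      have hqi : q = i := h3 q i (by rw [← hpre]; exact h1 q)
      subst hqi
      rcases hw : u (Sum.inr q) with j | k
      · have : q = j := h3 q j (by rw [← hw]; exact h2 q)
        subst this
        exact absurd (u.injective (hpre.trans hw.symm)) (by simp)
      · exact ⟨k, Or.inl ⟨hpre, rfl⟩⟩
    · rw [hq] at hpre
      have hqi : q = i := h3 q i (by rw [← hpre]; exact h2 q)
      subst hqi
      rcases hw : u (Sum.inl q) with j | k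
      · have : q = j := h3 q j (by rw [← hw]; exact h1 q)
        subst this
        exact absurd (u.injective (hpre.trans hw.symm)) (by simp)
      · exact ⟨k, Or.inr ⟨hpre, rfl⟩⟩
  choose ρ hρ using key
  have hinj : Function.Injective ρ := by
    intro i i' h
    have a1 : ∃ q, u q = Sum.inr (ρ i) ∧ (q = Sum.inl i ∨ q = Sum.inr i) := by
      rcases hρ i with ⟨_, h'⟩ | ⟨_, h'⟩
      · exact ⟨_, h', Or.inr rfl⟩
      · exact ⟨_, h', Or.inl rfl⟩
    have a2 : ∃ q, u q = Sum.inr (ρ i') ∧ (q = Sum.inl i' ∨ q = Sum.inr i') := by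
      rcases hρ i' with ⟨_, h'⟩ | ⟨_, h'⟩
      · exact ⟨_, h', Or.inr rfl⟩
      · exact ⟨_, h', Or.inl rfl⟩
    obtain ⟨q, hq, hq'⟩ := a1
    obtain ⟨p, hp, hp'⟩ := a2
    have : q = p := u.injective (by rw [hq, hp, h])
    subst this
    rcases hq' with rfl | rfl <;> rcases hp' with h'' | h'' <;> simp_all
  let e : Equiv.Perm (Fin r) := Equiv.ofBijective ρ (Finite.injective_iff_bijective.1 hinj)
  have he : ∀ i, e i = ρ i := fun i => rfl
  have h4 : (∏ i, ‖W A (u (Sum.inl i)) i‖) * (∏ i, ‖W A (u (Sum.inr i)) i‖) =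
      ∏ i, ‖A (ρ i) i‖ := by
    rw [← prod_mul_distrib]
    refine prod_congr rfl fun i _ => ?_
    rcases hρ i with ⟨ha, hb⟩ | ⟨ha, hb⟩ <;> rw [ha, hb] <;> simp [W]
  rw [h4]
  have h5 : ∏ i, ‖A (ρ i) i‖ = ∏ k, ‖A k (e.symm k)‖ := by
    rw [← Equiv.prod_comp e (fun k => ‖A k (e.symm k)‖)]
    refine prod_congr rfl fun i _ => ?_
    rw [Equiv.symm_apply_apply, he]
  rw [h5]
  exact hT _

theorem norm_det_le (M : Matrix (Fin r) (Fin r) ℂ) :
    ‖M.det‖ ≤ ∑ σ : Equiv.Perm (Fin r), ∏ i, ‖M (σ i) i‖ := by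
  rw [det_apply']
  refine (norm_sum_le _ _).trans (sum_le_sum fun σ _ => ?_)
  rw [norm_mul, norm_prod]
  have : ‖(((Equiv.Perm.sign σ : ℤˣ) : ℤ) : ℂ)‖ = 1 := by
    rcases Int.units_eq_one_or (Equiv.Perm.sign σ) with h | h <;> simp [h]
  rw [this, one_mul]

theorem det_mul_le (A : Matrix (Fin r) (Fin r) ℂ) (T : ℝ)
    (hT : ∀ ρ : Equiv.Perm (Fin r), ∏ k, ‖A k (ρ k)‖ ≤ T) (π : Equiv.Perm (Fin r ⊕ Fin r)) :
    ‖(Matrix.of fun i => W A (π (Sum.inl i))).det‖ *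
      ‖(Matrix.of fun i => W A (π (Sum.inr i))).det‖ ≤ (r.factorial : ℝ) ^ 2 * T := by
  classical
  have hs : ∀ M : Matrix (Fin r) (Fin r) ℂ,
      0 ≤ ∑ σ : Equiv.Perm (Fin r), ∏ i, ‖M (σ i) i‖ := fun M =>
    sum_nonneg fun _ _ => prod_nonneg fun _ _ => norm_nonneg _
  refine (mul_le_mul (norm_det_le _) (norm_det_le _) (norm_nonneg _) (hs _)).trans ?_
  rw [sum_mul_sum]
  have h1 : ∀ σ τ : Equiv.Perm (Fin r),
      (∏ i, ‖(Matrix.of fun i => W A (π (Sum.inl i))) (σ i) i‖) *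
        (∏ i, ‖(Matrix.of fun i => W A (π (Sum.inr i))) (τ i) i‖) ≤ T := by
    intro σ τ
    exact term_le A T hT ((Equiv.sumCongr σ τ).trans π)
  refine (sum_le_sum fun σ _ => sum_le_sum fun τ _ => h1 σ τ).trans ?_
  simp only [sum_const, card_univ, Fintype.card_perm, Fintype.card_fin, nsmul_eq_mul]
  rw [sq, mul_assoc]

end Pool.Agent.H11Dy
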